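import Pool.Agent.H96RS3.Cp

open Set Complex
open scoped Matroid

namespace Pool.Agent.H96RS3

open Pool.Agent.H96RS Pool.Agent.H96RS2

/-- complex conjugation as an automorphism over the rationals -/
noncomputable def cj : ℂ ≃ₐ[ℚ] ℂ := Complex.conjAe.restrictScalars ℚ

theorem cj_apply (a : ℂ) : cj a = starRingEnd ℂ a := rfl

theorem cl_cj {S : Set ℂ} {a : ℂ} (h : a ∈ Mt.closure S) :
    starRingEnd ℂ a ∈ Mt.closure ((fun z => starRingEnd ℂ z) '' S) := by
  rw [mem_cl] at h ⊢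
  have h1 : IsAlgebraic ((Algebra.adjoin ℚ S).map (cj : ℂ →ₐ[ℚ] ℂ)) (cj a) := by
    refine h.ringHom_of_comp_eq (cj.subalgebraMap (Algebra.adjoin ℚ S)) cj
      (cj.subalgebraMap (Algebra.adjoin ℚ S)).injective ?_
    ext v
    rfl
  rw [AlgHom.map_adjoin] at h1
  exact h1

theorem cj_cj_image (S : Set ℂ) :
    (fun z => starRingEnd ℂ z) '' ((fun z => starRingEnd ℂ z) '' S) = S := by
  rw [image_image]; simp

theorem rk_cj {F : Set ℂ} (hF : (fun z => starRingEnd ℂ z) '' F ⊆ F) (S : Set ℂ) :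
    rk F S ≤ rk F ((fun z => starRingEnd ℂ z) '' S) := by
  have hinj : Function.Injective (fun z : ℂ => starRingEnd ℂ z) := (starRingEnd ℂ).injective
  obtain ⟨I, hI⟩ := (Mt ／ F).exists_isBasis' S
  have h1 : (Mt ／ F).Indep ((fun z => starRingEnd ℂ z) '' I) := by
    have h2 := hI.indep
    rw [rindep_iff] at h2 ⊢
    rintro _ ⟨i, hi, rfl⟩ hc
    apply h2 i hi
    have h3 := cl_cj hc
    simp only [Complex.conj_conj] at h3
    refine Mt.closure_subset_closure ?_ h3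
    rintro _ ⟨b, (hb | ⟨⟨j, hj, rfl⟩, hb⟩), rfl⟩
    · exact Or.inl (hF ⟨b, hb, rfl⟩)
    · refine Or.inr ⟨by simpa using hj, fun h4 => hb ?_⟩
      have h5 : j = i := by simpa using h4
      rw [h5]; rfl
  calc rk F S = I.encard := hI.eRk_eq_encard
    _ = ((fun z => starRingEnd ℂ z) '' I).encard := (hinj.encard_image I).symm
    _ ≤ _ := h1.encard_le_eRk_of_subset (image_mono hI.subset)

theorem notMem_of_one_le_rk {F : Set ℂ} {u : ℂ} (h : 1 ≤ rk F {u}) : u ∉ Mt.closure F := by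
  intro hu
  have h1 : rk F {u} ≤ rk F ∅ := rk_le_of_subset (by
    rw [union_empty]; exact singleton_subset_iff.2 hu)
  have h2 : rk F ∅ = 0 := (Mt ／ F).eRk_empty
  rw [h2] at h1
  exact absurd (h.trans h1) (by simp)

theorem one_le_rk_of_notMem {F : Set ℂ} {u : ℂ} (h : u ∉ Mt.closure F) : 1 ≤ rk F {u} := by
  have h1 := rk_insert (F := F) (P := ∅) (a := u) (by rwa [union_empty])
  have h2 : insert u (∅ : Set ℂ) = {u} := by simp
  rw [h2] at h1
  rw [h1]; exact le_add_self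

theorem notMem_of_transcendental {C : Set ℂ} {u : ℂ} (h : Transcendental (QC C) u) :
    u ∉ Mt.closure C := by
  have h1 : (AlgebraicIndependent.matroid (QC C) ℂ).Indep {u} :=
    (algebraicIndependent_unique_type_iff (ι := ({u} : Set ℂ))).2 h
  have h2 := (rindep_iff.1 (indep_over_iff.1 h1)) u rfl
  rwa [sdiff_self, union_empty] at h2

theorem exists_scale {n r : ℕ} (q : Fin r → Fin n → ℚ) :
    ∃ (b : ℤ) (M : Fin r → Fin n → ℤ), b ≠ 0 ∧ ∀ i j, (M i j : ℚ) = b * q i j := by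
  obtain ⟨b, hb⟩ := IsLocalization.exist_integer_multiples_of_finite (nonZeroDivisors ℤ)
    (fun p : Fin r × Fin n => q p.1 p.2)
  choose M hM using fun i j => hb (i, j)
  refine ⟨b, M, nonZeroDivisors.ne_zero b.2, fun i j => ?_⟩
  have h1 := hM i j
  simp only [eq_intCast, zsmul_eq_mul] at h1
  exact h1

theorem sum_fst {n : ℕ} (w : Fin n → ℂ × ℂ) (m : Fin n → ℤ) :
    (∑ j, ((m j : ℤ) : ℚ) • w j).1 = ∑ j, (m j : ℂ) * (w j).1 := by
  rw [Prod.fst_sum]
  refine Finset.sum_congr rfl fun j _ => ?_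
  rw [Prod.smul_fst, Rat.smul_def]; push_cast; rfl

theorem exp_sum_snd {n : ℕ} (w : Fin n → ℂ × ℂ) (m : Fin n → ℤ) :
    exp (∑ j, ((m j : ℤ) : ℚ) • w j).2 = ∏ j, exp (w j).2 ^ m j := by
  rw [Prod.snd_sum, exp_sum]
  refine Finset.prod_congr rfl fun j _ => ?_
  rw [Prod.smul_snd, Rat.smul_def, Rat.cast_intCast, exp_int_mul]

end Pool.Agent.H96RS3
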