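import Pool.Agent.H96RS3.Mat

open Set Complex
open scoped Matroid

namespace Pool.Agent.H96RS3

open Pool.Agent.H96RS Pool.Agent.H96RS2

/-- the part of `Good` that does not speak of `1` and of conjugation -/
structure PGood (ω : ℂ) (G : Submodule ℚ (ℂ × ℂ)) : Prop where
  fn : ∀ v ∈ G, v.1 = 0 → v.2 = 0
  om : ((ω, 2 * Real.pi * I) : ℂ × ℂ) ∈ G
  ker : ∀ v ∈ G, exp v.2 = 1 → ∃ k : ℤ, v.1 = (k : ℚ) • ω
  sch : ∀ Y : Submodule ℚ (ℂ × ℂ), Y ≤ G → FiniteDimensional ℚ Y →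
    (Module.finrank ℚ Y : ℕ∞) ≤ Mt.eRk (Nums Y) + dl ω Y

theorem PGood.of_good {ω : ℂ} {τ : ℝ} {G : Submodule ℚ (ℂ × ℂ)} (h : Good ω τ G) : PGood ω G :=
  ⟨h.fn, h.om, h.ker, h.sch⟩

theorem finrank_split {G W Y : Submodule ℚ (ℂ × ℂ)} [FiniteDimensional ℚ W] [FiniteDimensional ℚ Y]
    (hY : Y ≤ G ⊔ W) : Module.finrank ℚ Y ≤ Module.finrank ℚ (Y ⊓ G : Submodule ℚ (ℂ × ℂ)) +
      Module.finrank ℚ ((Y ⊔ G) ⊓ W : Submodule ℚ (ℂ × ℂ)) := by
  set f := G.mkQ.domRestrict Y with hf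
  have h1 := LinearMap.finrank_range_add_finrank_ker f
  have hfd : FiniteDimensional ℚ (Y ⊓ G : Submodule ℚ (ℂ × ℂ)) :=
    Submodule.finiteDimensional_of_le inf_le_left
  have hfd2 : FiniteDimensional ℚ ((Y ⊔ G) ⊓ W : Submodule ℚ (ℂ × ℂ)) :=
    Submodule.finiteDimensional_of_le inf_le_right
  have h2 : Module.finrank ℚ (LinearMap.ker f) ≤
      Module.finrank ℚ (Y ⊓ G : Submodule ℚ (ℂ × ℂ)) := by
    have h4 : (LinearMap.ker f).map Y.subtype ≤ (Y ⊓ G : Submodule ℚ (ℂ × ℂ)) := by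
      rintro _ ⟨a, ha, rfl⟩
      refine ⟨a.2, ?_⟩
      have h5 : G.mkQ a.1 = 0 := ha
      simpa using h5
    have h5 := Submodule.finrank_mono h4
    rwa [← (Submodule.equivMapOfInjective Y.subtype Y.injective_subtype _).finrank_eq] at h5
  have h3 : Module.finrank ℚ (LinearMap.range f) ≤
      Module.finrank ℚ ((Y ⊔ G) ⊓ W : Submodule ℚ (ℂ × ℂ)) := by
    have h4 : LinearMap.range f ≤ ((Y ⊔ G) ⊓ W : Submodule ℚ (ℂ × ℂ)).map G.mkQ := by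
      rintro _ ⟨⟨y, hy⟩, rfl⟩
      obtain ⟨u, hu, w, hw, h5⟩ := Submodule.mem_sup.1 (hY hy)
      refine ⟨w, ⟨?_, hw⟩, ?_⟩
      · have h6 : w = y - u := by rw [← h5]; abel
        rw [h6]
        exact Submodule.sub_mem _ (Submodule.mem_sup_left hy) (Submodule.mem_sup_right hu)
      · show G.mkQ w = G.mkQ y
        rw [← h5, map_add]
        have h7 : G.mkQ u = 0 := by simpa using hu
        rw [h7, zero_add]
    exact (Submodule.finrank_mono h4).trans (Submodule.finrank_map_le _ _)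
  omega

theorem cl_le {F T : Set ℂ} {a : ℂ} (h : a ∈ Mt.closure F) : a ∈ Mt.closure (F ∪ T) :=
  Mt.closure_subset_closure subset_union_left h

/-- extension by a free and rotund finite dimensional space -/
theorem PGood.extW {ω : ℂ} {G : Submodule ℚ (ℂ × ℂ)} (h : PGood ω G) {F : Set ℂ}
    (hGF : Nums G ⊆ Mt.closure F) {W : Submodule ℚ (ℂ × ℂ)} [FiniteDimensional ℚ W]
    (hfree : ∀ v ∈ W, v ≠ 0 → v.1 ∉ Mt.closure F ∧ exp v.2 ∉ Mt.closure F)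
    (hrot : ∀ Y : Submodule ℚ (ℂ × ℂ), Y ≤ W → (Module.finrank ℚ Y : ℕ∞) ≤ rk F (Nums Y)) :
    PGood ω (G ⊔ W) := by
  refine ⟨?_, (le_sup_left : G ≤ G ⊔ W) h.om, ?_, ?_⟩
  · intro v hv hv0
    obtain ⟨u, hu, w, hw, rfl⟩ := Submodule.mem_sup.1 hv
    have hw0 : w = 0 := by
      by_contra hw0
      apply (hfree w hw hw0).1
      have h1 : w.1 = (-u).1 := by
        have : u.1 + w.1 = 0 := hv0
        rw [Prod.fst_neg]; linear_combination this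
      rw [h1]
      exact hGF ⟨-u, G.neg_mem hu, Or.inl rfl⟩
    subst hw0
    rw [add_zero] at hv0 ⊢
    exact h.fn u hu hv0
  · intro v hv h1
    obtain ⟨u, hu, w, hw, rfl⟩ := Submodule.mem_sup.1 hv
    have hw0 : w = 0 := by
      by_contra hw0
      apply (hfree w hw hw0).2
      have h2 : exp w.2 = exp (-u).2 := by
        rw [Prod.snd_neg, exp_neg]
        rw [Prod.snd_add, exp_add] at h1
        exact eq_inv_of_mul_eq_one_right h1
      rw [h2]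
      exact hGF ⟨-u, G.neg_mem hu, Or.inr rfl⟩
    subst hw0
    rw [add_zero] at h1 ⊢
    exact h.ker u hu h1
  · intro Y hY hfin
    have hfd : FiniteDimensional ℚ (Y ⊓ G : Submodule ℚ (ℂ × ℂ)) :=
      Submodule.finiteDimensional_of_le inf_le_left
    have h1 := finrank_split hY
    have h2 := h.sch (Y ⊓ G) inf_le_right hfd
    have h3 := hrot ((Y ⊔ G) ⊓ W) inf_le_right
    have h4 : Nums ((Y ⊔ G) ⊓ W) ⊆ Mt.closure (F ∪ Nums Y) := by
      rintro t ⟨v, ⟨hv, -⟩, ht⟩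
      obtain ⟨y, hy, g, hg, rfl⟩ := Submodule.mem_sup.1 hv
      have hY1 : y.1 ∈ Mt.closure (F ∪ Nums Y) :=
        Mt.mem_closure_of_mem (Or.inr ⟨y, hy, Or.inl rfl⟩) (by simp)
      have hY2 : exp y.2 ∈ Mt.closure (F ∪ Nums Y) :=
        Mt.mem_closure_of_mem (Or.inr ⟨y, hy, Or.inr rfl⟩) (by simp)
      have hG1 : g.1 ∈ Mt.closure (F ∪ Nums Y) := cl_le (hGF ⟨g, hg, Or.inl rfl⟩)
      have hG2 : exp g.2 ∈ Mt.closure (F ∪ Nums Y) := cl_le (hGF ⟨g, hg, Or.inr rfl⟩)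
      rcases ht with rfl | rfl
      · exact cl_add hY1 hG1
      · rw [Prod.snd_add, exp_add]; exact cl_mul hY2 hG2
    have h5 := h3.trans (rk_le_of_subset h4)
    have h6 : Mt.eRk (Nums (Y ⊓ G)) + rk F (Nums Y) ≤ Mt.eRk (Nums Y) :=
      eRk_add_rk_le ((Nums_mono inf_le_right).trans hGF) (Nums_mono inf_le_left)
    calc (Module.finrank ℚ Y : ℕ∞)
        ≤ ((Module.finrank ℚ (Y ⊓ G : Submodule ℚ (ℂ × ℂ)) +
            Module.finrank ℚ ((Y ⊔ G) ⊓ W : Submodule ℚ (ℂ × ℂ)) : ℕ) : ℕ∞) := by exact_mod_cast h1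
      _ = (Module.finrank ℚ (Y ⊓ G : Submodule ℚ (ℂ × ℂ)) : ℕ∞) +
            (Module.finrank ℚ ((Y ⊔ G) ⊓ W : Submodule ℚ (ℂ × ℂ)) : ℕ∞) := by push_cast; rfl
      _ ≤ (Mt.eRk (Nums (Y ⊓ G)) + dl ω (Y ⊓ G)) + rk F (Nums Y) := add_le_add h2 h5
      _ = (Mt.eRk (Nums (Y ⊓ G)) + rk F (Nums Y)) + dl ω (Y ⊓ G) := by ring
      _ ≤ Mt.eRk (Nums Y) + dl ω Y := add_le_add h6 (dl_mono inf_le_left)

end Pool.Agent.H96RS3
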